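import Mathlib

/-!
# POS, core: `1 * f` and `1 * f₁ * f₂ * f₁ f₂` are nonnegative
-/

set_option autoImplicit false

open Finset

namespace Pool.Agent.N946.RP

/-- Dirichlet convolution. -/
noncomputable def cv (f h : ℕ → ℝ) (n : ℕ) : ℝ := ∑ m ∈ n.divisors, f m * h (n / m)

/-- the arithmetic function -/
noncomputable def af (f : ℕ → ℝ) : ArithmeticFunction ℝ := ⟨fun n => if n = 0 then 0 else f n, by simp⟩

theorem af_apply (f : ℕ → ℝ) {n : ℕ} (hn : n ≠ 0) : af f n = f n := by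
  show (if n = 0 then 0 else f n) = f n
  rw [if_neg hn]

theorem af_cv (f h : ℕ → ℝ) : af (cv f h) = af f * af h := by
  ext n
  rcases eq_or_ne n 0 with rfl | hn
  · simp
  rw [af_apply _ hn, ArithmeticFunction.mul_apply,
    Nat.sum_divisorsAntidiagonal (fun i j => af f i * af h j)]
  unfold cv
  refine sum_congr rfl fun m hm => ?_
  have hd := Nat.dvd_of_mem_divisors hm
  have hm0 : m ≠ 0 := fun h0 => hn (by rw [h0] at hd; exact Nat.eq_zero_of_zero_dvd hd)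
  have hq : n / m ≠ 0 := (Nat.div_pos (Nat.le_of_dvd (Nat.pos_of_ne_zero hn) hd)
    (Nat.pos_of_ne_zero hm0)).ne'
  rw [af_apply _ hm0, af_apply _ hq]

/-- the power series of the values at the powers of `p` -/
noncomputable def ps (p : ℕ) (f : ℕ → ℝ) : PowerSeries ℝ := PowerSeries.mk fun k => f (p ^ k)

theorem ps_cv {p : ℕ} (hp : p.Prime) (f h : ℕ → ℝ) : ps p (cv f h) = ps p f * ps p h := by
  ext k
  rw [PowerSeries.coeff_mul,
    Finset.Nat.sum_antidiagonal_eq_sum_range_succ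
      (fun i j => PowerSeries.coeff i (ps p f) * PowerSeries.coeff j (ps p h))]
  simp only [ps, PowerSeries.coeff_mk]
  unfold cv
  rw [Nat.sum_divisors_prime_pow hp]
  refine sum_congr rfl fun i hi => ?_
  rw [Nat.pow_div (Nat.lt_succ_iff.mp (mem_range.mp hi)) hp.pos]

/-- the geometric series -/
noncomputable def P (c : ℝ) : PowerSeries ℝ := PowerSeries.mk fun k => c ^ k

/-- nonnegative coefficients -/
def NN (a : PowerSeries ℝ) : Prop := ∀ k, 0 ≤ PowerSeries.coeff k a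

theorem NN.mul {a b : PowerSeries ℝ} (ha : NN a) (hb : NN b) : NN (a * b) := by
  intro k
  rw [PowerSeries.coeff_mul]
  exact sum_nonneg fun x _ => mul_nonneg (ha _) (hb _)

theorem NN_P {c : ℝ} (hc : 0 ≤ c) : NN (P c) := by
  intro k
  simp only [P, PowerSeries.coeff_mk]
  exact pow_nonneg hc k

theorem NN_PP (c : ℝ) : NN (P c * P (-c)) := by
  intro k
  rw [PowerSeries.coeff_mul,
    Finset.Nat.sum_antidiagonal_eq_sum_range_succ
      (fun i j => PowerSeries.coeff i (P c) * PowerSeries.coeff j (P (-c)))]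
  have h : ∀ i ∈ range k.succ, PowerSeries.coeff i (P c) * PowerSeries.coeff (k - i) (P (-c)) =
      (-c) ^ k * (-1) ^ i := by
    intro i hi
    have hik : i ≤ k := Nat.lt_succ_iff.mp (mem_range.mp hi)
    simp only [P, PowerSeries.coeff_mk]
    obtain ⟨j, rfl⟩ := Nat.exists_eq_add_of_le hik
    rw [Nat.add_sub_cancel_left, pow_add, neg_pow c i]
    have : ((-1 : ℝ) ^ i) * (-1) ^ i = 1 := by
      rw [← mul_pow]; norm_num
    calc c ^ i * (-c) ^ j = ((-1 : ℝ) ^ i * (-1) ^ i) * (c ^ i * (-c) ^ j) := by rw [this, one_mul]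
      _ = (-1) ^ i * c ^ i * (-c) ^ j * (-1) ^ i := by ring
  rw [sum_congr rfl h, ← mul_sum, neg_one_geom_sum]
  split_ifs with h2
  · simp
  · have hk : Even k := by
      rcases Nat.even_or_odd k with h3 | h3
      · exact h3
      · exact absurd h3.add_one h2
    rw [mul_one]
    exact hk.pow_nonneg _

theorem NN_four {e s : ℝ} (he : e = 0 ∨ e = 1 ∨ e = -1) (hs : s = 0 ∨ s = 1 ∨ s = -1) :
    NN (P s * P (e * s) * (P e * P 1)) := by
  have h1 : NN (P e * P 1) := by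
    rcases he with rfl | rfl | rfl
    · exact (NN_P le_rfl).mul (NN_P zero_le_one)
    · exact (NN_P zero_le_one).mul (NN_P zero_le_one)
    · rw [mul_comm]
      exact NN_PP 1
  rcases hs with rfl | rfl | rfl
  · refine NN.mul ?_ h1
    rw [mul_zero]
    exact (NN_P le_rfl).mul (NN_P le_rfl)
  · refine NN.mul ?_ h1
    rw [mul_one, mul_comm]
    exact h1
  · have h2 : P (-1) * P (e * -1) * (P e * P 1) = (P 1 * P (-1)) * (P e * P (-e)) := by
      rw [show e * (-1 : ℝ) = -e by ring]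
      ring
    rw [h2]
    exact (NN_PP 1).mul (NN_PP e)

theorem NN_two {e : ℝ} (he : e = 0 ∨ e = 1 ∨ e = -1) : NN (P e * P 1) := by
  rcases he with rfl | rfl | rfl
  · exact (NN_P le_rfl).mul (NN_P zero_le_one)
  · exact (NN_P zero_le_one).mul (NN_P zero_le_one)
  · rw [mul_comm]
    exact NN_PP 1

theorem nonneg_of {g : ℕ → ℝ} (hg : (af g).IsMultiplicative)
    (h : ∀ p : ℕ, p.Prime → NN (ps p g)) {n : ℕ} (hn : n ≠ 0) : 0 ≤ g n := by
  rw [← af_apply g hn, ArithmeticFunction.IsMultiplicative.multiplicative_factorization _ hg hn]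
  refine prod_nonneg fun p hp => ?_
  have hpp : p.Prime := Nat.prime_of_mem_primeFactors (by rwa [Nat.support_factorization] at hp)
  show 0 ≤ af g (p ^ n.factorization p)
  rw [af_apply _ (pow_ne_zero _ hpp.ne_zero)]
  have := h p hpp (n.factorization p)
  simpa only [ps, PowerSeries.coeff_mk] using this

theorem af_mult {f : ℕ → ℝ} (h1 : f 1 = 1) (hm : ∀ a b : ℕ, a ≠ 0 → b ≠ 0 → f (a * b) = f a * f b) :
    (af f).IsMultiplicative := by
  refine ⟨by rw [af_apply _ one_ne_zero, h1], ?_⟩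
  intro m n _
  rcases eq_or_ne m 0 with rfl | hm0
  · simp
  rcases eq_or_ne n 0 with rfl | hn0
  · simp
  rw [af_apply _ (mul_ne_zero hm0 hn0), af_apply _ hm0, af_apply _ hn0, hm m n hm0 hn0]

theorem ps_of {f : ℕ → ℝ} (h1 : f 1 = 1) (hm : ∀ a b : ℕ, a ≠ 0 → b ≠ 0 → f (a * b) = f a * f b)
    {p : ℕ} (hp : p.Prime) : ps p f = P (f p) := by
  ext k
  simp only [ps, P, PowerSeries.coeff_mk]
  induction k with
  | zero => simpa using h1
  | succ k ih => rw [pow_succ, hm _ _ (pow_ne_zero _ hp.ne_zero) hp.ne_zero, ih, pow_succ]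

theorem core {f₁ f₂ : ℕ → ℝ} (h1 : f₁ 1 = 1)
    (hm1 : ∀ a b : ℕ, a ≠ 0 → b ≠ 0 → f₁ (a * b) = f₁ a * f₁ b)
    (hv1 : ∀ n : ℕ, f₁ n = 0 ∨ f₁ n = 1 ∨ f₁ n = -1) (h2 : f₂ 1 = 1)
    (hm2 : ∀ a b : ℕ, a ≠ 0 → b ≠ 0 → f₂ (a * b) = f₂ a * f₂ b)
    (hv2 : ∀ n : ℕ, f₂ n = 0 ∨ f₂ n = 1 ∨ f₂ n = -1) :
    (∀ n : ℕ, 0 ≤ cv f₁ (fun _ => 1) n) ∧
    (∀ n : ℕ, 0 ≤ cv (cv f₂ (fun n => f₁ n * f₂ n)) (cv f₁ (fun _ => 1)) n) ∧
    cv f₁ (fun _ => 1) 1 = 1 ∧
    cv (cv f₂ (fun n => f₁ n * f₂ n)) (cv f₁ (fun _ => 1)) 1 = 1 := by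
  have hone : (fun _ : ℕ => (1 : ℝ)) 1 = 1 := rfl
  have honem : ∀ a b : ℕ, a ≠ 0 → b ≠ 0 →
      (fun _ : ℕ => (1 : ℝ)) (a * b) = (fun _ : ℕ => (1 : ℝ)) a * (fun _ : ℕ => (1 : ℝ)) b := by
    intro a b _ _; simp
  have h12 : (fun n => f₁ n * f₂ n) 1 = 1 := by simp [h1, h2]
  have hm12 : ∀ a b : ℕ, a ≠ 0 → b ≠ 0 →
      (fun n => f₁ n * f₂ n) (a * b) = (fun n => f₁ n * f₂ n) a * (fun n => f₁ n * f₂ n) b := by
    intro a b ha hb
    simp only [hm1 a b ha hb, hm2 a b ha hb]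
    ring
  have hr2 : (af (cv f₁ fun _ => 1)).IsMultiplicative := by
    rw [af_cv]
    exact (af_mult h1 hm1).mul (af_mult hone honem)
  have hr4 : (af (cv (cv f₂ (fun n => f₁ n * f₂ n)) (cv f₁ (fun _ => 1)))).IsMultiplicative := by
    rw [af_cv, af_cv f₂]
    exact ((af_mult h2 hm2).mul (af_mult h12 hm12)).mul hr2
  refine ⟨?_, ?_, ?_, ?_⟩
  · intro n
    rcases eq_or_ne n 0 with rfl | hn
    · simp [cv]
    · refine nonneg_of hr2 (fun p hp => ?_) hn
      rw [ps_cv hp, ps_of h1 hm1 hp, ps_of (f := fun _ : ℕ => (1 : ℝ)) hone honem hp]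
      exact NN_two (hv1 p)
  · intro n
    rcases eq_or_ne n 0 with rfl | hn
    · simp [cv]
    · refine nonneg_of hr4 (fun p hp => ?_) hn
      rw [ps_cv hp, ps_cv hp, ps_cv hp, ps_of h1 hm1 hp,
        ps_of (f := fun _ : ℕ => (1 : ℝ)) hone honem hp, ps_of h2 hm2 hp,
        ps_of (f := fun n => f₁ n * f₂ n) h12 hm12 hp]
      exact NN_four (hv1 p) (hv2 p)
  · simp [cv, h1]
  · simp [cv, h1, h2]

end Pool.Agent.N946.RP
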