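import Pool.Agent.N71.RP.Stm
import Pool.Agent.N946.RP.PosCore

/-!
# POS: `1 * f` and `1 * f₁ * f₂ * f₁ f₂` are nonnegative
-/

set_option autoImplicit false

namespace Pool.Agent.N946.RP

theorem t_POS : Pool.Agent.N71.RP.E_POS := by
  intro f₁ f₂ Q h1 h2
  exact core h1.one h1.mul h1.val h2.one h2.mul h2.val

end Pool.Agent.N946.RP
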